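import Pool.Agent.Lib.MP_ba0fa5_ag.AA.IfaceA

/-!
MP_ba0fa5_ag, Theorem A, module RJLOW: rough numbers without prime factors `1 mod 2 ^ (J + 1)`.
-/

namespace Pool.Agent.Lib.MP_ba0fa5_ag.AA.H63

open scoped Classical
open Finset

theorem VV_nonneg (W z : ℕ) : 0 ≤ VV W z := by
  unfold VV
  apply Finset.prod_nonneg
  intro l hl
  unfold primesIn at hl
  rw [Finset.mem_filter] at hl
  have h2 : (2 : ℝ) ≤ l := by exact_mod_cast hl.2.two_le
  have : 1 / (l : ℝ) ≤ 1 := by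
    rw [div_le_one (by linarith)]
    linarith
  linarith

theorem rjlow (h1 : AplStmt) (h2 : BadjStmt) : RjlowStmt := by
  intro ε hε
  obtain ⟨B1, hB1⟩ := h1 (ε / 2) (by linarith)
  obtain ⟨B2, hB2⟩ := h2
  refine ⟨max (B1 + 1) B2, fun A => ?_⟩
  obtain ⟨C, hC, hbad⟩ := hB2 A
  obtain ⟨J0, hJ0⟩ := exists_nat_gt (2 * C / ε)
  have hJ : ∃ J : ℕ, 2 ≤ J ∧ C / 2 ^ J ≤ ε / 2 := by
    refine ⟨max 2 J0, le_max_left _ _, ?_⟩
    have hlt : (J0 : ℝ) < 2 ^ (max 2 J0) := by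
      have h3 : J0 < 2 ^ (max 2 J0) :=
        lt_of_le_of_lt (le_max_right 2 J0) Nat.lt_two_pow_self
      exact_mod_cast h3
    have h4 : 2 * C / ε < 2 ^ (max 2 J0) := hJ0.trans hlt
    rw [div_lt_iff₀ hε] at h4
    rw [div_le_iff₀ (by positivity)]
    linarith
  obtain ⟨J, hJ2, hJC⟩ := hJ
  refine ⟨J, hJ2, fun W hW => ?_⟩
  obtain ⟨z₀, hz₀⟩ := hbad J W hW
  refine ⟨max z₀ (max (primorial W) 2), fun z Y c hz hzY hYz hc => ?_⟩
  have hz1 : z₀ ≤ z := le_trans (le_max_left _ _) hz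
  have hz2 : primorial W ≤ z := le_trans (le_trans (le_max_left _ _) (le_max_right _ _)) hz
  have hz3 : 2 ≤ z := le_trans (le_trans (le_max_right _ _) (le_max_right _ _)) hz
  have hY1 : primorial W * z ^ B1 ≤ Y := by
    calc primorial W * z ^ B1 ≤ z * z ^ B1 := Nat.mul_le_mul_right _ hz2
      _ = z ^ (B1 + 1) := by rw [pow_succ']
      _ ≤ z ^ (max (B1 + 1) B2) := Nat.pow_le_pow_right (by omega) (le_max_left _ _)
      _ ≤ Y := hzY
  have hY2 : z ^ B2 ≤ Y :=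
    le_trans (Nat.pow_le_pow_right (by omega) (le_max_right _ _)) hzY
  have hlow := hB1 W z Y c hW hz3 hY1 hc
  have hup := hz₀ z Y c hz1 hY2 hYz hc
  have hsub : (Icc 1 Y).filter (fun n => n ≡ c [MOD primorial W] ∧ Rgh z n) ⊆
      (Icc 1 Y).filter (fun n => n ≡ c [MOD primorial W] ∧ RJ z J n) ∪
      (Icc 1 Y).filter (fun n => n ≡ c [MOD primorial W] ∧ Rgh z n ∧
        ∃ l : ℕ, l.Prime ∧ l ∣ n ∧ 2 ^ (J + 1) ∣ l - 1) := by
    intro n hn
    rw [Finset.mem_filter] at hn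
    rw [Finset.mem_union, Finset.mem_filter, Finset.mem_filter]
    by_cases hb : ∃ l : ℕ, l.Prime ∧ l ∣ n ∧ 2 ^ (J + 1) ∣ l - 1
    · exact Or.inr ⟨hn.1, hn.2.1, hn.2.2, hb⟩
    · left
      refine ⟨hn.1, hn.2.1, hn.2.2, ?_⟩
      intro l hl hln hd
      exact hb ⟨l, hl, hln, hd⟩
  have hcard := (Finset.card_le_card hsub).trans (Finset.card_union_le _ _)
  have hcard' : (((Icc 1 Y).filter (fun n => n ≡ c [MOD primorial W] ∧ Rgh z n)).card : ℝ) ≤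
      (((Icc 1 Y).filter (fun n => n ≡ c [MOD primorial W] ∧ RJ z J n)).card : ℝ) +
      (((Icc 1 Y).filter (fun n => n ≡ c [MOD primorial W] ∧ Rgh z n ∧
        ∃ l : ℕ, l.Prime ∧ l ∣ n ∧ 2 ^ (J + 1) ∣ l - 1)).card : ℝ) := by
    exact_mod_cast hcard
  have hT : 0 ≤ (Y : ℝ) / (primorial W : ℝ) * VV W z :=
    mul_nonneg (by positivity) (VV_nonneg W z)
  have h5 : C / 2 ^ J * ((Y : ℝ) / (primorial W : ℝ)) * VV W z ≤
      ε / 2 * ((Y : ℝ) / (primorial W : ℝ) * VV W z) := by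
    rw [mul_assoc]
    exact mul_le_mul_of_nonneg_right hJC hT
  have h6 : (1 - ε / 2) * ((Y : ℝ) / (primorial W : ℝ)) * VV W z =
      (1 - ε / 2) * ((Y : ℝ) / (primorial W : ℝ) * VV W z) := by ring
  have h7 : (1 - ε) * ((Y : ℝ) / (primorial W : ℝ)) * VV W z =
      (1 - ε) * ((Y : ℝ) / (primorial W : ℝ) * VV W z) := by ring
  rw [h7]
  rw [h6] at hlow
  nlinarith [hlow, hup, hcard', h5]

end Pool.Agent.Lib.MP_ba0fa5_ag.AA.H63
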